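import Mathlib

set_option autoImplicit false

namespace Pool.Agent.Results.MP_48b6db_an.SuperDeltaRay

/-- `x` lies in the closed unit ball and, for every weakly open set `U` containing `x`, the
supremum of `‖x - y‖` over the relatively weakly open subset `B_X ∩ U` equals `1 + ‖x‖`. -/
def IsSuperDelta (𝕜 : Type*) [RCLike 𝕜] {X : Type*} [NormedAddCommGroup X] [NormedSpace 𝕜 X]
    (x : X) : Prop :=
  ‖x‖ ≤ 1 ∧
    ∀ U : Set (WeakSpace 𝕜 X), IsOpen U → toWeakSpace 𝕜 X x ∈ U →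
      sSup {d : ℝ | ∃ y : X, ‖y‖ ≤ 1 ∧ toWeakSpace 𝕜 X y ∈ U ∧ d = ‖x - y‖} = 1 + ‖x‖

theorem result (𝕜 : Type*) [RCLike 𝕜] (X : Type*) [NormedAddCommGroup X] [NormedSpace 𝕜 X]
    [CompleteSpace X] (x : X) (hx : ‖x‖ = 1) (hD : IsSuperDelta 𝕜 x)
    (r : ℝ) (hr0 : 0 < r) (hr1 : r < 1) :
    IsSuperDelta 𝕜 ((r : 𝕜) • x) := by
  have hnorm : ‖(r : 𝕜) • x‖ = r := by
    rw [norm_smul, hx, RCLike.norm_ofReal, abs_of_pos hr0, mul_one]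
  refine ⟨by rw [hnorm]; exact hr1.le, ?_⟩
  intro U hU hxU
  rw [hnorm]
  set l : ℝ := (1 + r) / 2 with hl
  have hl0 : 0 < l := by rw [hl]; linarith
  have hl1 : l < 1 := by rw [hl]; linarith
  -- the affine map on the weak space
  let φ : WeakSpace 𝕜 X → WeakSpace 𝕜 X := fun y =>
    (l : 𝕜) • y - ((1 - l : ℝ) : 𝕜) • toWeakSpace 𝕜 X x
  have hφ : Continuous φ := by
    have h1 : Continuous fun y : WeakSpace 𝕜 X => (l : 𝕜) • y := continuous_const_smul _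
    exact h1.sub continuous_const
  have hφy : ∀ y : X, φ (toWeakSpace 𝕜 X y)
      = toWeakSpace 𝕜 X ((l : 𝕜) • y - ((1 - l : ℝ) : 𝕜) • x) := by
    intro y
    simp only [φ, map_sub, map_smul]
  have hφx : (l : 𝕜) • x - ((1 - l : ℝ) : 𝕜) • x = (r : 𝕜) • x := by
    rw [← sub_smul, ← RCLike.ofReal_sub]
    congr 2
    rw [hl]; ring
  have hmem : toWeakSpace 𝕜 X x ∈ φ ⁻¹' U := by
    show φ (toWeakSpace 𝕜 X x) ∈ U
    rw [hφy, hφx]; exact hxU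
  have hsup := hD.2 (φ ⁻¹' U) (hU.preimage hφ) hmem
  rw [hx] at hsup
  have hbdd : ∀ d ∈ {d : ℝ | ∃ y : X, ‖y‖ ≤ 1 ∧ toWeakSpace 𝕜 X y ∈ U ∧
      d = ‖(r : 𝕜) • x - y‖}, d ≤ 1 + r := by
    rintro d ⟨y, hy, -, rfl⟩
    calc ‖(r : 𝕜) • x - y‖ ≤ ‖(r : 𝕜) • x‖ + ‖y‖ := norm_sub_le _ _
      _ ≤ 1 + r := by rw [hnorm]; linarith
  have hne : {d : ℝ | ∃ y : X, ‖y‖ ≤ 1 ∧ toWeakSpace 𝕜 X y ∈ U ∧
      d = ‖(r : 𝕜) • x - y‖}.Nonempty :=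
    ⟨_, (r : 𝕜) • x, by rw [hnorm]; exact hr1.le, hxU, rfl⟩
  refine le_antisymm (csSup_le hne hbdd) ?_
  -- lower bound
  have hne' : {d : ℝ | ∃ y : X, ‖y‖ ≤ 1 ∧ toWeakSpace 𝕜 X y ∈ φ ⁻¹' U ∧
      d = ‖x - y‖}.Nonempty := ⟨_, x, hx.le, hmem, rfl⟩
  have key : (1 : ℝ) + 1 ≤ sSup {d : ℝ | ∃ y : X, ‖y‖ ≤ 1 ∧ toWeakSpace 𝕜 X y ∈ U ∧
      d = ‖(r : 𝕜) • x - y‖} / l := by
    rw [← hsup]
    refine csSup_le hne' ?_
    rintro d ⟨y, hy, hyU, rfl⟩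
    rw [le_div_iff₀ hl0]
    refine le_csSup ⟨1 + r, hbdd⟩ ?_
    refine ⟨(l : 𝕜) • y - ((1 - l : ℝ) : 𝕜) • x, ?_, ?_, ?_⟩
    · calc ‖(l : 𝕜) • y - ((1 - l : ℝ) : 𝕜) • x‖
          ≤ ‖(l : 𝕜) • y‖ + ‖((1 - l : ℝ) : 𝕜) • x‖ := norm_sub_le _ _
        _ = l * ‖y‖ + (1 - l) := by
          rw [norm_smul, norm_smul, hx, RCLike.norm_ofReal, RCLike.norm_ofReal,
            abs_of_pos hl0, abs_of_pos (by linarith), mul_one]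
        _ ≤ 1 := by nlinarith
    · rw [← hφy]; exact hyU
    · have : (r : 𝕜) • x - ((l : 𝕜) • y - ((1 - l : ℝ) : 𝕜) • x) = (l : 𝕜) • (x - y) := by
        rw [← hφx, smul_sub]
        abel
      rw [this, norm_smul, RCLike.norm_ofReal, abs_of_pos hl0, mul_comm]
  rw [le_div_iff₀ hl0] at key
  have : (1 + 1) * l = 1 + r := by rw [hl]; ring
  linarith

end Pool.Agent.Results.MP_48b6db_an.SuperDeltaRay
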